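import Pool.Agent.W203.WS.Stm2

set_option autoImplicit false

/-! Project WT (helper203): Poisson summation. -/

namespace Pool.Agent.W145.WT

section

open Complex Real

theorem pois (σ : ℝ) (hσ : 0 < σ) (t z : ℝ) :
    ∑' n : ℤ, cexp (2 * π * I * (t * n)) * cexp (-π * ((z - n) / σ) ^ 2) =
    ∑' j : ℤ, (σ : ℂ) * cexp (-π * σ ^ 2 * (t + j) ^ 2) * cexp (2 * π * I * ((t + j) * z)) := by
  have hσ' : (σ : ℂ) ≠ 0 := by exact_mod_cast hσ.ne'
  have ha : 0 < ((1 / (σ : ℂ) ^ 2)).re := by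
    have : (1 / (σ : ℂ) ^ 2) = ((1 / σ ^ 2 : ℝ) : ℂ) := by push_cast; ring
    rw [this, Complex.ofReal_re]
    positivity
  have h := Complex.tsum_exp_neg_quadratic ha ((z : ℂ) / σ ^ 2 + I * t)
  have hroot : (1 / (σ : ℂ) ^ 2) ^ (1 / 2 : ℂ) = 1 / σ := by
    have h1 : (1 / (σ : ℂ) ^ 2) = ((1 / σ ^ 2 : ℝ) : ℂ) := by push_cast; ring
    have h2 : (1 / 2 : ℂ) = ((1 / 2 : ℝ) : ℂ) := by push_cast; ring
    rw [h1, h2, ← Complex.ofReal_cpow (by positivity)]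
    rw [← Real.sqrt_eq_rpow]
    rw [Real.sqrt_div (by norm_num), Real.sqrt_sq hσ.le]
    push_cast
    simp
  rw [hroot] at h
  have hL : ∀ n : ℤ, cexp (2 * π * I * (t * n)) * cexp (-π * ((z - n) / σ) ^ 2) =
      cexp (-π * z ^ 2 / σ ^ 2) *
        cexp (-π * (1 / (σ : ℂ) ^ 2) * n ^ 2 + 2 * π * ((z : ℂ) / σ ^ 2 + I * t) * n) := by
    intro n
    rw [← Complex.exp_add, ← Complex.exp_add]
    congr 1
    field_simp
    ring
  have hR : ∀ n : ℤ, cexp (-π * z ^ 2 / σ ^ 2) *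
      (1 / (1 / (σ : ℂ)) * cexp (-π / (1 / (σ : ℂ) ^ 2) * (n + I * ((z : ℂ) / σ ^ 2 + I * t)) ^ 2)) =
      (σ : ℂ) * cexp (-π * σ ^ 2 * (t + (-n : ℤ)) ^ 2) * cexp (2 * π * I * ((t + (-n : ℤ)) * z)) := by
    intro n
    have e1 : (1 / (1 / (σ : ℂ))) = σ := by field_simp
    have e2 : (-π / (1 / (σ : ℂ) ^ 2) * (n + I * ((z : ℂ) / σ ^ 2 + I * t)) ^ 2) =
        π * z ^ 2 / σ ^ 2 + (-π * σ ^ 2 * (t + (-n : ℤ)) ^ 2) +
          (2 * π * I * ((t + (-n : ℤ)) * z)) := by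
      push_cast
      have hI : I ^ 2 = -1 := Complex.I_sq
      have hI3 : I ^ 3 = -I := by rw [pow_succ, hI]; ring
      have hI4 : I ^ 4 = 1 := by rw [pow_succ, hI3]; ring_nf; rw [hI]; ring
      field_simp
      ring_nf
      simp only [hI, hI3, hI4]
      ring
    rw [e1, e2, Complex.exp_add, Complex.exp_add]
    have e3 : cexp (-π * z ^ 2 / σ ^ 2) * cexp (π * z ^ 2 / σ ^ 2) = 1 := by
      rw [← Complex.exp_add, ← Complex.exp_zero]
      congr 1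
      ring
    calc _ = (cexp (-π * z ^ 2 / σ ^ 2) * cexp (π * z ^ 2 / σ ^ 2)) * (σ *
        cexp (-π * σ ^ 2 * (t + (-n : ℤ)) ^ 2) * cexp (2 * π * I * ((t + (-n : ℤ)) * z))) := by ring
      _ = _ := by rw [e3, one_mul]
  calc _ = ∑' n : ℤ, cexp (-π * z ^ 2 / σ ^ 2) *
        cexp (-π * (1 / (σ : ℂ) ^ 2) * n ^ 2 + 2 * π * ((z : ℂ) / σ ^ 2 + I * t) * n) :=
        tsum_congr hL
    _ = ∑' n : ℤ, cexp (-π * z ^ 2 / σ ^ 2) *
      (1 / (1 / (σ : ℂ)) * cexp (-π / (1 / (σ : ℂ) ^ 2) * (n + I * ((z : ℂ) / σ ^ 2 + I * t)) ^ 2)) := by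
        rw [tsum_mul_left, h, tsum_mul_left, tsum_mul_left]
    _ = ∑' n : ℤ, (σ : ℂ) * cexp (-π * σ ^ 2 * (t + (-n : ℤ)) ^ 2) *
          cexp (2 * π * I * ((t + (-n : ℤ)) * z)) := tsum_congr hR
    _ = _ := (Equiv.neg ℤ).tsum_eq (fun n : ℤ => (σ : ℂ) * cexp (-π * σ ^ 2 * (t + n) ^ 2) *
          cexp (2 * π * I * ((t + n) * z)))

theorem gsum (σ t : ℝ) (hσ : 0 < σ) :
    Summable (fun j : ℤ => σ * rexp (-π * σ ^ 2 * (t + j) ^ 2)) := by
  have h := summable_pow_mul_jacobiTheta₂_term_bound (σ ^ 2 * |t|) (T := σ ^ 2) (by positivity) 0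
  refine Summable.mul_left σ (Summable.of_nonneg_of_le (fun j => (Real.exp_pos _).le) ?_ h)
  intro j
  simp only [pow_zero, one_mul]
  apply Real.exp_le_exp.mpr
  have h1 : -(|t| * |(j : ℝ)|) ≤ t * j := by
    rw [← abs_mul]; exact neg_abs_le _
  have h2 : 0 ≤ σ ^ 2 := by positivity
  have h3 : 0 ≤ t ^ 2 := by positivity
  have h4 : σ ^ 2 * (j : ℝ) ^ 2 - 2 * (σ ^ 2 * |t|) * |(j : ℝ)| ≤ σ ^ 2 * (t + j) ^ 2 := by
    nlinarith [mul_le_mul_of_nonneg_left h1 h2, mul_nonneg h2 h3]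
  have hc : ((|j| : ℤ) : ℝ) = |(j : ℝ)| := by push_cast; rfl
  have hpi := Real.pi_pos
  rw [hc]
  nlinarith [mul_le_mul_of_nonneg_left h4 hpi.le]

end

open Pool.Agent.W203.WS Finset

theorem norm_e (x : ℝ) : ‖e x‖ = 1 := by
  unfold e
  rw [show 2 * (Real.pi : ℂ) * Complex.I * (x : ℂ) = ((2 * Real.pi * x : ℝ) : ℂ) * Complex.I by
    push_cast; ring]
  exact Complex.norm_exp_ofReal_mul_I _

theorem rho_eq (σ : ℝ) (hσ : 0 < σ) (t y : ℝ) :
    rho σ t y = ∑' j : ℤ, aa σ (t + j) * e ((t + j) * y) := by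
  have h := pois σ hσ t (y - 1 / 2)
  unfold rho
  have h1 : ∀ n : ℤ, e (t * n) * ((Real.exp (-Real.pi * ((y - 1 / 2 - n) / σ) ^ 2) : ℝ) : ℂ) =
      Complex.exp (2 * Real.pi * Complex.I * (t * n)) *
        Complex.exp (-Real.pi * (((y - 1 / 2 : ℝ) - n) / σ) ^ 2) := by
    intro n
    unfold e
    push_cast
    rfl
  have h2 : ∀ j : ℤ, (σ : ℂ) * Complex.exp (-Real.pi * σ ^ 2 * (t + j) ^ 2) *
      Complex.exp (2 * Real.pi * Complex.I * ((t + j) * (y - 1 / 2 : ℝ))) =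
      aa σ (t + j) * e ((t + j) * y) := by
    intro j
    unfold aa e
    push_cast
    have key : ∀ (s A B C D E : ℂ), D + E = A + B + C →
        s * Complex.exp D * Complex.exp E =
          s * Complex.exp A * (Complex.exp B) * Complex.exp C := by
      intro s A B C D E h
      rw [mul_assoc, ← Complex.exp_add, h, Complex.exp_add, Complex.exp_add]
      ring
    exact key _ _ _ _ _ _ (by ring)
  rw [tsum_congr h1, h, tsum_congr h2]

theorem norm_aa (σ : ℝ) (hσ : 0 < σ) (u : ℝ) :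
    ‖aa σ u‖ = σ * Real.exp (-Real.pi * σ ^ 2 * u ^ 2) := by
  unfold aa
  rw [norm_mul, norm_e, mul_one, Complex.norm_real, Real.norm_eq_abs, abs_of_pos (by positivity)]
  congr 2
  ring

theorem t_POI : S_POI := by
  intro k P σ t θ hσ
  have hg : Summable (fun j : ℤ => ‖aa σ (t + j)‖) := by
    have := gsum σ t hσ
    refine this.congr (fun j => ?_)
    rw [norm_aa σ hσ]
  constructor
  · refine Summable.of_nonneg_of_le (fun j => norm_nonneg _) (fun j => ?_)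
      (hg.mul_right (((Ico P (4 * P)).card : ℝ)))
    rw [norm_mul]
    apply mul_le_mul_of_nonneg_left _ (norm_nonneg _)
    unfold S
    refine (norm_sum_le _ _).trans ?_
    rw [Finset.sum_congr rfl (fun x _ => norm_e _)]
    simp
  · unfold T S
    rw [Finset.sum_congr rfl (fun (x : ℕ) _ => rho_eq σ hσ t ((((x : ℕ) : ℝ) + θ) ^ k))]
    rw [← Summable.tsum_finsetSum]
    · apply tsum_congr
      intro j
      rw [Finset.mul_sum]
    · intro x _
      apply Summable.of_norm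
      refine hg.congr (fun j => ?_)
      rw [norm_mul, norm_e, mul_one]

end Pool.Agent.W145.WT
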